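import Pool.Agent.H57.KM.DirC
import Pool.Agent.H57.KM.Struct
import Pool.Agent.H57.KM.Cover
import Pool.Agent.H57.KM.Orth

/-!
# The cone conjecture for varieties whose automorphism group contains `ℤ^(ρ-1)`

`D : NefData ρ` is `N^1(Y)` with its lattice, the ample cone, the cone of effective classes and the image of `Aut(Y)`.
If this image contains a free abelian group of rank `ρ - 1`, then Q1 holds for `Y` (effective nef cone), the
effective nef cone is the ample cone together with `0`, and `N^1(Y)_ℚ` is a totally real number field of degree `ρ`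
on which the free abelian group acts by units, the ample rational classes being the totally positive elements.
-/

set_option autoImplicit false

namespace Pool.Agent.H57.KM.Res.MaximalRank

open Pool.Agent.H57.KM NumberField

private theorem ext_rat {n : ℕ} (F G : V n →ₗ[ℝ] ℝ) (h : ∀ q : Fin n → ℚ, F (qR q) = G (qR q)) :
    F = G := by
  apply LinearMap.pi_ext'
  intro i
  apply LinearMap.ext
  intro c
  have h1 : qR (Pi.single i 1) = (Pi.single i 1 : V n) := by
    funext j
    unfold qR
    by_cases hj : j = i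
    · subst hj; simp
    · simp [hj]
  have h2 := h (Pi.single i 1)
  rw [h1] at h2
  have h3 : (Pi.single i c : V n) = c • (Pi.single i 1 : V n) := by
    rw [← Pi.single_smul]
    simp
  simp only [LinearMap.comp_apply, LinearMap.single_apply]
  rw [h3, map_smul, map_smul, h2]

theorem result {r : ℕ} (D : NefData (r + 1)) (f : Multiplicative (Fin r → ℤ) →* GL (Fin (r + 1)) ℤ)
    (hf : Function.Injective f) (hG : ∀ t, f t ∈ D.G) :
    D.Q1 ∧ closure D.amp ∩ D.eff = D.amp ∪ {0} ∧
      ∃ (K : Type) (_ : Field K) (_ : NumberField K) (φ : K ≃ₗ[ℚ] (Fin (r + 1) → ℚ))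
        (α : Multiplicative (Fin r → ℤ) →* (𝓞 K)ˣ),
        (∀ χ : K →+* ℂ, ∀ k, (χ k).im = 0) ∧
        (∀ k, qR (φ k) ∈ D.amp ↔ ∀ σ : K →+* ℝ, 0 < σ k) ∧
        (∀ k, qR (φ k) ∈ closure D.amp → k = 0 ∨ qR (φ k) ∈ D.amp) ∧
        ∀ t k, qR (φ ((((α t : (𝓞 K)ˣ) : 𝓞 K) : K) * k)) = act (f t) (qR (φ k)) := by
  classical
  obtain ⟨K, iK, iN, α, φ, hα, hreal, h1, hmul⟩ := struct D.isAmp f hf
    (fun t x hx => D.act_amp _ (hG t) x hx)
  have hfinite : Finite (K →+* ℝ) := by
    refine Finite.of_injective (fun σ : K →+* ℝ => Complex.ofRealHom.comp σ) ?_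
    intro σ τ h
    ext k
    have := congrArg (fun χ : K →+* ℂ => χ k) h
    simpa using this
  have hft : Fintype (K →+* ℝ) := Fintype.ofFinite _
  obtain ⟨X, hX⟩ := coord hreal φ
  have hdeg : Module.finrank ℚ K = r + 1 := by
    rw [LinearEquiv.finrank_eq φ]
    simp
  obtain ⟨M, hM⟩ := cover hreal hdeg α hα
  let T := {t : Multiplicative (Fin r → ℤ) // ∀ σ : K →+* ℝ, 0 < σ (((α t : (𝓞 K)ˣ) : 𝓞 K) : K)}
  let g : T → GL (Fin (r + 1)) ℤ := fun t => f t.1
  let lam : T → (K →+* ℝ) → ℝ := fun t σ => σ (((α t.1 : (𝓞 K)ˣ) : 𝓞 K) : K)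
  have hlam : ∀ t σ, 0 < lam t σ := fun t σ => t.2 σ
  have hXg : ∀ (t : T) (v : V (r + 1)) (σ : K →+* ℝ), X (act (g t) v) σ = lam t σ * X v σ := by
    intro t v σ
    let F : V (r + 1) →ₗ[ℝ] ℝ :=
      { toFun := fun v => X (act (g t) v) σ
        map_add' := fun a b => by rw [act_add, map_add, Pi.add_apply]
        map_smul' := fun c a => by
          rw [act_smul, map_smul, Pi.smul_apply, RingHom.id_apply] }
    let H : V (r + 1) →ₗ[ℝ] ℝ :=
      { toFun := fun v => lam t σ * X v σ
        map_add' := fun a b => by rw [map_add, Pi.add_apply]; ring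
        map_smul' := fun c a => by
          rw [map_smul, Pi.smul_apply, RingHom.id_apply, smul_eq_mul, smul_eq_mul]; ring }
    have hFH : F = H := by
      apply ext_rat
      intro q
      have e1 : q = φ (φ.symm q) := (φ.apply_symm_apply q).symm
      change X (act (f t.1) (qR q)) σ = σ (((α t.1 : (𝓞 K)ˣ) : 𝓞 K) : K) * X (qR q) σ
      rw [e1, ← hmul, hX, hX, map_mul]
    have := congrArg (fun L : V (r + 1) →ₗ[ℝ] ℝ => L v) hFH
    exact this
  have hcov : ∀ y : (K →+* ℝ) → ℝ, ∑ σ, y σ = 0 → ∃ t : T, ∀ σ, |Real.log (lam t σ) - y σ| ≤ M := by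
    intro y hy
    obtain ⟨t, ht⟩ := hM y hy
    exact ⟨⟨t, fun σ => (ht σ).1⟩, fun σ => (ht σ).2⟩
  have hC : D.amp = {v | ∀ σ, 0 < X v σ} := by
    refine orth D.isAmp X g lam hlam hXg (fun t x hx => D.act_amp _ (hG t.1) x hx) M hcov h1 ?_
    intro σ
    rw [hX, map_one]
    exact one_pos
  have hrat : ∀ k, qR (φ k) ∈ D.amp ↔ ∀ σ : K →+* ℝ, 0 < σ k := by
    intro k
    rw [hC]
    simp only [Set.mem_ofPred_eq]
    constructor
    · intro h σ
      rw [← hX]
      exact h σ
    · intro h σ
      rw [hX]
      exact h σ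
  have hcl : ∀ k, qR (φ k) ∈ closure D.amp → k = 0 ∨ qR (φ k) ∈ D.amp := by
    intro k hk
    by_cases hk0 : k = 0
    · exact Or.inl hk0
    right
    rw [hrat]
    intro σ
    have hclosed : IsClosed {v : V (r + 1) | 0 ≤ X v σ} := by
      have hcont0 : Continuous (X : V (r + 1) →ₗ[ℝ] ((K →+* ℝ) → ℝ)) :=
        LinearMap.continuous_of_finiteDimensional _
      have hcont : Continuous (fun v : V (r + 1) => X v σ) := (continuous_apply σ).comp hcont0
      exact isClosed_le continuous_const hcont
    have hsub : closure D.amp ⊆ {v : V (r + 1) | 0 ≤ X v σ} := by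
      refine closure_minimal ?_ hclosed
      rw [hC]
      intro v hv
      exact (hv σ).le
    have h2 := hsub hk
    simp only [Set.mem_ofPred_eq] at h2
    rw [hX] at h2
    refine lt_of_le_of_ne h2 (fun h0 => hk0 ?_)
    have := (map_eq_zero σ).1 h0.symm
    exact this
  obtain ⟨Q, hQ, hQC, hcoco⟩ := coco D.G X g (fun t => hG t.1) lam hlam hXg M hcov hC
  obtain ⟨P, hP, hPc, hPd⟩ := fund_dom D.isAmp D.G D.act_amp hQ hQC hcoco
  have hnef : closure D.amp ∩ D.eff = D.amp ∪ {0} := by
    apply Set.Subset.antisymm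
    · refine D.nef_eff.trans ?_
      refine convexHull_min ?_ ?_
      · rintro x ⟨hx, q, rfl⟩
        have e1 : q = φ (φ.symm q) := (φ.apply_symm_apply q).symm
        rw [e1] at hx ⊢
        rcases hcl _ hx with h0 | h0
        · right
          rw [h0, map_zero]
          simp only [Set.mem_singleton_iff]
          funext i
          simp [qR]
        · exact Or.inl h0
      · intro x hx y hy a b ha hb hab
        rcases hx with hx | hx
        · rcases hy with hy | hy
          · exact Or.inl (D.isAmp.convex hx hy ha hb hab)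
          · rw [Set.mem_singleton_iff] at hy
            subst hy
            rcases ha.eq_or_lt with ha0 | ha0
            · right
              rw [← ha0]
              simp
            · left
              rw [smul_zero, add_zero]
              exact D.isAmp.smul a ha0 x hx
        · rw [Set.mem_singleton_iff] at hx
          subst hx
          rcases hy with hy | hy
          · rcases hb.eq_or_lt with hb0 | hb0
            · right
              rw [← hb0]
              simp
            · left
              rw [smul_zero, zero_add]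
              exact D.isAmp.smul b hb0 y hy
          · rw [Set.mem_singleton_iff] at hy
            subst hy
            right
            simp
    · rintro x (hx | hx)
      · exact ⟨subset_closure hx, D.amp_eff hx⟩
      · rw [Set.mem_singleton_iff] at hx
        subst hx
        exact ⟨D.isAmp.zero_closure, D.eff_zero⟩
  refine ⟨⟨P, hP, ?_, hPd⟩, hnef, K, iK, iN, φ, α, hreal, hrat, hcl, hmul⟩
  rw [hnef, hPc]

end Pool.Agent.H57.KM.Res.MaximalRank
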